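import Pool.Agent.Q97.RH.Tv

set_option autoImplicit false

open Filter MeasureTheory Metric Set Topology Complex
open scoped ENNReal

namespace Q97.RH

open Q97.RB Q97.MM Q97.RE

noncomputable section

/-- the quotient of the moment at distance `A / log T` and that on the line -/
def QB (β T U A : ℝ) : ℝ := MB β T U (1 / 2 + A / Real.log T) / MB β T U (1 / 2)

theorem QB_nonneg (β T U A : ℝ) : 0 ≤ QB β T U A := div_nonneg (MB_nonneg _ _ _ _) (MB_nonneg _ _ _ _)

/-- the quotients for `ζ` and for `(s - 1) ζ(s)` -/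
theorem QB_near {β : ℝ} (hβ : 0 < β) {A : ℝ} (hA : 0 < A) {ε : ℝ} (hε : 0 < ε) :
    ∀ᶠ T : ℝ in atTop, ∀ U : ℝ, Adm T U → 0 < MB β T U (1 / 2) ∧
      GB β T U A ≤ QB β T U A + ε ∧ QB β T U A ≤ GB β T U A + ε := by
  set e := min (1 / 4) (ε / 15) with he
  have he0 : 0 < e := lt_min (by norm_num) (by positivity)
  have he1 : e ≤ 1 / 4 := min_le_left _ _
  have he2 : 15 * e ≤ ε := by
    have : e ≤ ε / 15 := min_le_right _ _
    linarith
  filter_upwards [F1 hβ A he0, F1 hβ 0 he0, GB_le hβ hA.le one_pos, tilted_sharp hβ one_pos one_pos,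
    eventually_ge_atTop 3] with T h1 h2 h3 h4 hT U hU
  have hT0 : 0 < T := by linarith
  have hH := HB_pos hβ hU (x := 1 / 2) (by norm_num) (by norm_num)
  have hM := (h4 U hU).1
  refine ⟨hM, ?_⟩
  have hTβ : 0 < T ^ β := Real.rpow_pos_of_pos hT0 _
  have g1 := abs_le.mp (h1 U hU)
  have g2 := abs_le.mp (h2 U hU)
  have g3 := h3 U hU
  rw [GB_zero hβ hU] at g2
  have hG0 := GB_nonneg β T U A
  have hQ0 := QB_nonneg β T U A
  have e1 : QB β T U A * JB β T U 0 = JB β T U A := by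
    unfold QB JB
    rw [zero_div, add_zero]
    field_simp
  set G := GB β T U A with hG
  set Q := QB β T U A with hQ
  set J0 := JB β T U 0 with hJ0
  have b1 : 1 / 2 ≤ J0 := by linarith [g2.2]
  have b2 : Q * J0 ≤ 2 + 3 * e := by rw [e1]; nlinarith [g1.1]
  have b3 : Q ≤ 6 := by
    have : Q * (1 / 2) ≤ Q * J0 := mul_le_mul_of_nonneg_left b1 hQ0
    linarith
  constructor
  · have c1 : G ≤ Q * J0 + 3 * e := by rw [e1]; nlinarith [g1.2]
    have c2 : Q * J0 ≤ Q * (1 + 2 * e) := mul_le_mul_of_nonneg_left (by linarith [g2.1]) hQ0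
    nlinarith
  · have c1 : Q * J0 ≤ G + 3 * e := by rw [e1]; nlinarith [g1.1]
    have c2 : Q * (1 - 2 * e) ≤ Q * J0 := mul_le_mul_of_nonneg_left (by linarith [g2.2]) hQ0
    nlinarith

theorem rpow_sub {a b p : ℝ} (ha : 0 ≤ a) (hb : 0 ≤ b) (hp0 : 0 ≤ p) (hp1 : p ≤ 1) :
    (a + b) ^ p ≤ a ^ p + b ^ p := by
  have h := NNReal.rpow_add_le_add_rpow (⟨a, ha⟩ : NNReal) ⟨b, hb⟩ hp0 hp1
  exact_mod_cast h

/-- The moment of `ζ` weighted by the logarithmic counting function. -/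
theorem main_exp {β : ℝ} (hβ : 0 < β) {A : ℝ} (hA : 0 < A) {ε : ℝ} (hε : 0 < ε) :
    ∀ᶠ T : ℝ in atTop, ∀ U : ℝ, Adm T U → 0 < MB β T U (1 / 2) ∧
      ∫⁻ y : ℝ, ENNReal.ofReal (Real.exp (β * logcount (((1 / 2 : ℝ) : ℂ) + y * I)
        (A / Real.log T)) * (‖riemannZeta (((1 / 2 : ℝ) : ℂ) + y * I)‖ ^ β * wt T U y)) ≤
      ENNReal.ofReal ((Real.exp (β * A / Real.pi) * QB β T U A ^ (2 / Real.pi) + ε) *
        MB β T U (1 / 2)) := by
  have hπ := Real.pi_pos
  have hp0 : 0 < 2 / Real.pi := by positivity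
  have hp1 : 2 / Real.pi ≤ 1 := by
    rw [div_le_one hπ]
    linarith [Real.pi_gt_three]
  set K0 := Real.exp (β * A / Real.pi) with hK0
  have hK0p : 0 < K0 := Real.exp_pos _
  set B := K0 * 2 ^ (2 / Real.pi) with hB
  have hBp : 0 < B := by positivity
  have hKf : ∀ᶠ T : ℝ in atTop, ∀ U : ℝ, Adm T U →
      0 ≤ K0 * GB β T U A ^ (2 / Real.pi) ∧ K0 * GB β T U A ^ (2 / Real.pi) ≤ B := by
    filter_upwards [GB_le hβ hA.le one_pos] with T h1 U hU
    have hG0 := GB_nonneg β T U A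
    have g1 := h1 U hU
    refine ⟨by positivity, ?_⟩
    rw [hB]
    gcongr
    linarith
  have hcore : ∀ e : ℝ, 0 < e → ∀ᶠ T : ℝ in atTop, ∀ U : ℝ, Adm T U →
      ∫⁻ y : ℝ, ENNReal.ofReal (‖FB β T U (((1 / 2 : ℝ) : ℂ) + y * I)‖ ^ β *
        Real.exp (β * logcount (((1 / 2 : ℝ) : ℂ) + y * I) (A / Real.log T))) ≤
      ENNReal.ofReal ((K0 * GB β T U A ^ (2 / Real.pi) + e) * HB β T U (1 / 2)) := by
    intro e he
    filter_upwards [core_q hβ hA (show 0 < e / B by positivity), hKf] with T h1 h2 U hU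
    refine (h1 U hU).2.trans (ENNReal.ofReal_le_ofReal ?_)
    have hH := HB_nonneg β T U (1 / 2)
    obtain ⟨k1, k2⟩ := h2 U hU
    apply mul_le_mul_of_nonneg_right _ hH
    have : K0 * GB β T U A ^ (2 / Real.pi) * (e / B) ≤ B * (e / B) := by gcongr
    rw [mul_div_cancel₀ _ hBp.ne'] at this
    rw [mul_add, mul_one]
    linarith
  -- the constant for the comparison of the quotients
  set d := (ε / (2 * K0)) ^ (Real.pi / 2) with hd
  have hd0 : 0 < d := by positivity
  have hdp : K0 * d ^ (2 / Real.pi) = ε / 2 := by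
    rw [hd, ← Real.rpow_mul (by positivity)]
    have : Real.pi / 2 * (2 / Real.pi) = 1 := by field_simp
    rw [this, Real.rpow_one]
    field_simp
  filter_upwards [tilted_var hβ hA hBp.le hKf hcore (half_pos hε), QB_near hβ hA hd0] with T h1 h2 U hU
  obtain ⟨hM, g1⟩ := h1 U hU
  refine ⟨hM, g1.trans (ENNReal.ofReal_le_ofReal ?_)⟩
  apply mul_le_mul_of_nonneg_right _ hM.le
  have g2 := (h2 U hU).2.1
  have hG0 := GB_nonneg β T U A
  have hQ0 := QB_nonneg β T U A
  have g3 : GB β T U A ^ (2 / Real.pi) ≤ QB β T U A ^ (2 / Real.pi) + d ^ (2 / Real.pi) :=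
    (Real.rpow_le_rpow hG0 g2 hp0.le).trans (rpow_sub hQ0 hd0.le hp0.le hp1)
  have g4 : K0 * GB β T U A ^ (2 / Real.pi) ≤
      K0 * (QB β T U A ^ (2 / Real.pi) + d ^ (2 / Real.pi)) := mul_le_mul_of_nonneg_left g3 hK0p.le
  rw [mul_add, hdp] at g4
  linarith

/-- The mean of the logarithmic counting function. -/
theorem main_log {β : ℝ} (hβ : 0 < β) {A : ℝ} (hA : 0 < A) {ε : ℝ} (hε : 0 < ε) :
    ∀ᶠ T : ℝ in atTop, ∀ U : ℝ, Adm T U → 0 < QB β T U A ∧
      0 ≤ A / Real.pi + 2 / (Real.pi * β) * Real.log (QB β T U A) + ε ∧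
      ∫⁻ y : ℝ, ENNReal.ofReal (logcount (((1 / 2 : ℝ) : ℂ) + y * I) (A / Real.log T) *
        (‖riemannZeta (((1 / 2 : ℝ) : ℂ) + y * I)‖ ^ β * wt T U y)) ≤
      ENNReal.ofReal ((A / Real.pi + 2 / (Real.pi * β) * Real.log (QB β T U A) + ε) *
        MB β T U (1 / 2)) := by
  have hπ := Real.pi_pos
  set c1 := Real.exp (-(β * A) / 2) / 2 with hc1
  have hc1p : 0 < c1 := by positivity
  set k0 := c1 ^ (2 / Real.pi) with hk0
  have hk0p : 0 < k0 := by positivity
  set e := β * ε * k0 with he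
  have he0 : 0 < e := by positivity
  filter_upwards [main_exp hβ hA he0, Q97.RG.lower hβ A hc1p] with T h1 h2 U h
  have hL := h.log
  have hU : 0 < U := h.pos
  have hT0 : 0 < T := by linarith [h.1]
  have hUT : U ≤ T := h.2.2.trans (div_le_self hT0.le hL)
  obtain ⟨hM, g1⟩ := h1 U h
  have hQc : c1 ≤ QB β T U A := by
    unfold QB
    rw [le_div_iff₀ hM]
    refine le_trans (le_of_eq ?_) (h2 U h)
    rw [hc1]
    ring
  have hQ0 : 0 < QB β T U A := by linarith
  set Q := QB β T U A with hQ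
  set K0 := Real.exp (β * A / Real.pi) * Q ^ (2 / Real.pi) with hK0
  have hK0k : k0 ≤ K0 := by
    rw [hK0, hk0]
    have a1 : (1 : ℝ) ≤ Real.exp (β * A / Real.pi) := Real.one_le_exp (by positivity)
    calc c1 ^ (2 / Real.pi) ≤ Q ^ (2 / Real.pi) := by gcongr
      _ = 1 * Q ^ (2 / Real.pi) := (one_mul _).symm
      _ ≤ _ := by gcongr
  have hK0p : 0 < K0 := by linarith
  set K := K0 + e with hK
  have hr0 : 0 < A / Real.log T := by positivity
  have hw0 : ∀ y : ℝ, 0 ≤ ‖riemannZeta (((1 / 2 : ℝ) : ℂ) + y * I)‖ ^ β * wt T U y := fun y => by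
    have := wt_pos T U y
    positivity
  have hMe : MB β T U (1 / 2) = ∫ y : ℝ, ‖riemannZeta (((1 / 2 : ℝ) : ℂ) + y * I)‖ ^ β * wt T U y := rfl
  have hint := MB_integrable hβ hU hT0.le hUT (x := 1 / 2) (by norm_num) (by norm_num)
  -- `1 ≤ K`
  have hK1 : 1 ≤ K := by
    have a1 : ENNReal.ofReal (MB β T U (1 / 2)) ≤ ENNReal.ofReal (K * MB β T U (1 / 2)) := by
      refine le_trans ?_ g1
      rw [hMe, ofReal_integral_eq_lintegral_ofReal hint (Eventually.of_forall hw0)]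
      refine lintegral_mono fun y => ENNReal.ofReal_le_ofReal ?_
      apply le_mul_of_one_le_left (hw0 y)
      exact Real.one_le_exp (mul_nonneg hβ.le (logcount_nonneg _ hr0))
    rw [ENNReal.ofReal_le_ofReal_iff (by positivity)] at a1
    by_contra hcon
    push Not at hcon
    nlinarith
  have hlK : Real.log K ≤ β * (A / Real.pi + 2 / (Real.pi * β) * Real.log Q + ε) := by
    have a1 : K = K0 * (1 + e / K0) := by rw [hK]; field_simp
    have a2 : Real.log K0 = β * A / Real.pi + 2 / Real.pi * Real.log Q := by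
      rw [hK0, Real.log_mul (Real.exp_pos _).ne' (by positivity), Real.log_exp, Real.log_rpow hQ0]
    have a3 : Real.log (1 + e / K0) ≤ e / K0 := by
      have := Real.log_le_sub_one_of_pos (show 0 < 1 + e / K0 by positivity)
      linarith
    have a4 : e / K0 ≤ β * ε := by
      rw [div_le_iff₀ hK0p, he]
      gcongr
    rw [a1, Real.log_mul hK0p.ne' (by positivity), a2]
    have a5 : β * (A / Real.pi + 2 / (Real.pi * β) * Real.log Q + ε) =
        β * A / Real.pi + 2 / Real.pi * Real.log Q + β * ε := by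
      field_simp
    rw [a5]
    linarith
  have hlK0 := Real.log_nonneg hK1
  refine ⟨hQ0, nonneg_of_mul_nonneg_right (hlK0.trans hlK) hβ, ?_⟩
  have h3 := jensen_lint (w := fun y : ℝ => ‖riemannZeta (((1 / 2 : ℝ) : ℂ) + y * I)‖ ^ β * wt T U y)
    (g := fun y : ℝ => β * logcount (((1 / 2 : ℝ) : ℂ) + y * I) (A / Real.log T))
    (zw_meas hβ T U).measurable hw0 (fun y => mul_nonneg hβ.le (logcount_nonneg _ hr0))
    hint hK1 g1
  have h4 : ENNReal.ofReal β * (∫⁻ y : ℝ, ENNReal.ofReal (logcount (((1 / 2 : ℝ) : ℂ) + y * I)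
      (A / Real.log T) * (‖riemannZeta (((1 / 2 : ℝ) : ℂ) + y * I)‖ ^ β * wt T U y))) ≤
      ENNReal.ofReal β * ENNReal.ofReal ((A / Real.pi + 2 / (Real.pi * β) * Real.log Q + ε) *
        MB β T U (1 / 2)) := by
    rw [← lintegral_const_mul' _ _ ENNReal.ofReal_ne_top, ← ENNReal.ofReal_mul hβ.le]
    calc _ ≤ ENNReal.ofReal (Real.log K * MB β T U (1 / 2)) := by
          refine le_trans (le_of_eq ?_) h3
          refine lintegral_congr fun y => ?_
          rw [← ENNReal.ofReal_mul hβ.le]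
          congr 1
          ring
      _ ≤ _ := by
          apply ENNReal.ofReal_le_ofReal
          rw [← mul_assoc]
          gcongr
  have hb : ENNReal.ofReal β ≠ 0 := by
    rw [Ne, ENNReal.ofReal_eq_zero]
    linarith
  exact (ENNReal.mul_le_mul_iff_right hb ENNReal.ofReal_ne_top).mp h4

end

end Q97.RH
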