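import Pool.Agent.Q97.RH.Mi
import Pool.Agent.Q80.DC.Eq

set_option autoImplicit false

open Filter MeasureTheory Metric Set Topology Complex
open scoped ENNReal

namespace Q97.RH

open Q97.RB Q97.MM Q97.RE Q80.DC
open Q80.VS (ak ak_pos)

noncomputable section

variable {k : ℕ}

theorem MB_even (k : ℕ) (T U x : ℝ) : MB (2 * k) T U x = JJ k T U x := by
  unfold MB JJ
  congr 1
  funext y
  have : (2 * (k : ℝ)) = ((2 * k : ℕ) : ℝ) := by push_cast; ring
  rw [this, Real.rpow_natCast]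

theorem QB_even (k : ℕ) (T U A : ℝ) : QB (2 * k) T U A = Ja k T U A / M0 k T U := by
  unfold QB
  rw [MB_even, MB_even]
  rfl

theorem Gf_le_exp (k : ℕ) {a x : ℝ} (ha : 0 ≤ a) (hx : 2 * x ≤ k) :
    Gf k a (2 * x) ≤ Real.exp (-(2 * a * x)) := by
  unfold Gf
  have h1 : Real.exp (-(a * (2 * k - 2 * x))) ≤ Real.exp (-(a * (2 * x))) := by
    apply Real.exp_le_exp.2
    have : a * (2 * x) ≤ a * (2 * k - 2 * x) := mul_le_mul_of_nonneg_left (by linarith) ha
    linarith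
  have h2 : a * (2 * x) = 2 * a * x := by ring
  rw [h2] at h1 ⊢
  linarith

theorem Gf_nonneg (k : ℕ) (a v : ℝ) : 0 ≤ Gf k a v := by unfold Gf; positivity

/-- The edge integral decays. -/
theorem EE_up (hk : 1 ≤ k) {θ : ℝ} (h0 : 0 ≤ θ) (hθ : 2 * θ ≤ k) {a : ℝ} (ha : 0 < a) :
    EE k θ (Gf k a) (Gf k a (2 * θ)) ≤ (a ^ (k ^ 2))⁻¹ := by
  obtain ⟨n, hn⟩ : ∃ n : ℕ, k ^ 2 = n + 1 := ⟨k ^ 2 - 1, by
    have : 1 ≤ k ^ 2 := Nat.one_le_pow _ _ hk
    omega⟩
  have hpt : ∀ x ∈ Icc (0 : ℝ) θ, gk k x * (Gf k a (2 * x) - Gf k a (2 * θ)) ≤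
      (a ^ n)⁻¹ * Real.exp (-(a * x)) := by
    intro x hx
    have hg := gk_nonneg k hx.1
    have h1 : Gf k a (2 * x) - Gf k a (2 * θ) ≤ Real.exp (-(2 * a * x)) := by
      have := Gf_le_exp k ha.le (x := x) (by linarith [hx.2])
      have := Gf_nonneg k a (2 * θ)
      linarith
    have h2 : gk k x ≤ (a ^ n)⁻¹ * Real.exp (a * x) := by
      have h3 : (a * x) ^ n / (n.factorial : ℝ) ≤ Real.exp (a * x) :=
        Real.pow_div_factorial_le_exp _ (mul_nonneg ha.le hx.1) _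
      have h4 : gk k x = (a ^ n)⁻¹ * ((a * x) ^ n / (n.factorial : ℝ)) := by
        unfold gk
        have : k ^ 2 - 1 = n := by omega
        rw [this, mul_pow]
        field_simp
      rw [h4]
      gcongr
    calc gk k x * (Gf k a (2 * x) - Gf k a (2 * θ)) ≤ gk k x * Real.exp (-(2 * a * x)) :=
          mul_le_mul_of_nonneg_left h1 hg
      _ ≤ ((a ^ n)⁻¹ * Real.exp (a * x)) * Real.exp (-(2 * a * x)) := by gcongr
      _ = _ := by
          rw [mul_assoc, ← Real.exp_add]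
          congr 2
          ring
  have hc1 : Continuous (fun x => gk k x * (Gf k a (2 * x) - Gf k a (2 * θ))) := by
    have := gk_cont k
    have := Gf_cont (k := k) a
    fun_prop
  have hc2 : Continuous (fun x => (a ^ n)⁻¹ * Real.exp (-(a * x))) := by fun_prop
  have i1 : EE k θ (Gf k a) (Gf k a (2 * θ)) ≤ ∫ x in (0 : ℝ)..θ, (a ^ n)⁻¹ * Real.exp (-(a * x)) :=
    intervalIntegral.integral_mono_on h0 (hc1.intervalIntegrable _ _)
      (hc2.intervalIntegrable _ _) hpt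
  refine i1.trans ?_
  have hd : ∀ x : ℝ, HasDerivAt (fun x : ℝ => -(a⁻¹ * Real.exp (-(a * x)))) (Real.exp (-(a * x))) x := by
    intro x
    have h1 : HasDerivAt (fun x : ℝ => -(a * x)) (-(a * 1)) x := ((hasDerivAt_id x).const_mul a).neg
    have h2 := ((h1.exp).const_mul a⁻¹).neg
    have e : -(a⁻¹ * (Real.exp (-(a * x)) * -(a * 1))) = Real.exp (-(a * x)) := by
      rw [show -(a⁻¹ * (Real.exp (-(a * x)) * -(a * 1))) = (a⁻¹ * a) * Real.exp (-(a * x)) by ring,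
        inv_mul_cancel₀ ha.ne', one_mul]
    rw [e] at h2
    exact h2
  rw [intervalIntegral.integral_const_mul,
    intervalIntegral.integral_eq_sub_of_hasDerivAt (fun x _ => hd x)
      ((by fun_prop : Continuous fun x : ℝ => Real.exp (-(a * x))).intervalIntegrable _ _),
    mul_zero, neg_zero, Real.exp_zero, hn, pow_succ, mul_inv]
  have h5 : 0 ≤ a⁻¹ * Real.exp (-(a * θ)) := by positivity
  have h6 : -(a⁻¹ * Real.exp (-(a * θ))) - -(a⁻¹ * 1) ≤ a⁻¹ := by linarith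
  gcongr

theorem M0_eq (k : ℕ) (T U : ℝ) : M0 k T U = MB (2 * k) T U (1 / 2) := (MB_even k T U (1 / 2)).symm

theorem DD_nonneg (hk : 1 ≤ k) {T U : ℝ} (h : Adm T U) : 0 ≤ DD k T U := by
  unfold DD
  have h1 := NN_pos (k := k) h
  have h2 := ak_pos hk
  positivity

/-- `U ≥ T ^ u` gives `U ≥ 1` -/
theorem adm_of {u T U : ℝ} (hu : 0 < u) (hT : 3 ≤ T) (h1 : T ^ u ≤ U) (h2 : U ≤ T / Real.log T) :
    Adm T U := ⟨hT, (Real.one_le_rpow (by linarith) hu.le).trans h1, h2⟩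

/-- the moment is at least a constant times the diagonal -/
theorem DD_le (hk : 1 ≤ k) {u : ℝ} (hu : 0 < u) : ∃ C : ℝ, 0 < C ∧ ∀ᶠ T : ℝ in atTop, ∀ U : ℝ,
    T ^ u ≤ U → U ≤ T / Real.log T → DD k T U ≤ C * M0 k T U := by
  have hk1 : (1 : ℝ) ≤ k := by exact_mod_cast hk
  have hβ : (0 : ℝ) < 2 * k := by linarith
  set θ := min u (k / 2) / 2 with hθ
  have hθ0 : 0 < θ := by
    have : 0 < min u ((k : ℝ) / 2) := lt_min hu (by linarith)
    positivity
  have hθu : θ < u := by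
    have : min u ((k : ℝ) / 2) ≤ u := min_le_left _ _
    linarith
  have hθk : 2 * θ ≤ k / 2 := by
    have : min u ((k : ℝ) / 2) ≤ k / 2 := min_le_right _ _
    linarith
  set c := EE k θ (Gf k 1) (Gf k 1 k) with hc
  have hc0 : 0 < c := by
    refine lt_of_lt_of_le ?_ (EE_low hk hθ0 hθk le_rfl)
    have : 0 < k ^ 2 - 1 + 1 := by omega
    positivity
  have hG : 0 < Gf k 1 k := by unfold Gf; positivity
  obtain ⟨T₀, hT₀⟩ := off_line hk hu 1 hθ0.le hθu (by linarith) hG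
  have hup := Q97.RG.pass_up hβ (a := 1) (K := 1) (by norm_num)
    (fun e he => GB_le hβ (by norm_num) he) (ε := 1) one_pos
  refine ⟨1 / c, by positivity, ?_⟩
  filter_upwards [eventually_ge_atTop T₀, eventually_ge_atTop 3, hup] with T h1 h2 h3 U hU1 hU2
  have hA := adm_of hu h2 hU1 hU2
  have g1 := (hT₀ T h1 U hU1 hU2).1
  have g2 := h3 U hA
  rw [MB_even, MB_even] at g2
  change Ja k T U 1 ≤ (1 + 1) * M0 k T U at g2
  rw [sub_self, zero_mul, zero_add] at g1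
  have g3 : c * DD k T U ≤ M0 k T U := by nlinarith
  rw [one_div, ← div_eq_inv_mul, le_div_iff₀ hc0]
  linarith

/-- The moments off the line decay at least like `a ^ (-k²)`. -/
theorem Ja_decay (hk : 1 ≤ k) {u : ℝ} (hu : 0 < u) : ∃ C : ℝ, 0 < C ∧ ∀ a : ℝ, 0 < a →
    ∀ᶠ T : ℝ in atTop, ∀ U : ℝ, T ^ u ≤ U → U ≤ T / Real.log T →
      Ja k T U a ≤ C * (a ^ (k ^ 2))⁻¹ * M0 k T U := by
  have hk1 : (1 : ℝ) ≤ k := by exact_mod_cast hk
  obtain ⟨C1, hC1, hD⟩ := DD_le hk hu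
  set θ := min u (k / 2) / 2 with hθ
  have hθ0 : 0 < θ := by
    have : 0 < min u ((k : ℝ) / 2) := lt_min hu (by linarith)
    positivity
  have hθu : θ < u := by
    have : min u ((k : ℝ) / 2) ≤ u := min_le_left _ _
    linarith
  have hθk : 2 * θ ≤ k / 2 := by
    have : min u ((k : ℝ) / 2) ≤ k / 2 := min_le_right _ _
    linarith
  set F := ((k ^ 2).factorial : ℝ) / (2 * θ) ^ (k ^ 2) with hF
  have hF0 : 0 < F := by positivity
  refine ⟨F + 1 + 2 * C1, by positivity, fun a ha => ?_⟩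
  have hak : 0 < (a ^ (k ^ 2))⁻¹ := by positivity
  obtain ⟨T₀, hT₀⟩ := off_line hk hu a hθ0.le hθu (by linarith) hak
  filter_upwards [eventually_ge_atTop T₀, eventually_ge_atTop 3, hD] with T h1 h2 h3 U hU1 hU2
  have hA := adm_of hu h2 hU1 hU2
  have hM := M0_nonneg k T U
  have g1 := (hT₀ T h1 U hU1 hU2).2
  have g2 := h3 U hU1 hU2
  have hD0 := DD_nonneg hk hA
  have g3 : Gf k a (2 * θ) ≤ F * (a ^ (k ^ 2))⁻¹ := by
    refine (Gf_le_exp k ha.le (by linarith)).trans ?_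
    have h4 : (2 * a * θ) ^ (k ^ 2) / ((k ^ 2).factorial : ℝ) ≤ Real.exp (2 * a * θ) :=
      Real.pow_div_factorial_le_exp _ (by positivity) _
    rw [Real.exp_neg, hF]
    rw [inv_le_comm₀ (Real.exp_pos _) (by positivity)]
    refine le_trans (le_of_eq ?_) h4
    rw [mul_inv, inv_div, inv_inv, mul_pow, mul_pow, mul_pow]
    field_simp
  have g4 : EE k θ (Gf k a) (Gf k a (2 * θ)) ≤ (a ^ (k ^ 2))⁻¹ := EE_up hk hθ0.le (by linarith) ha
  have g5 : 2 * EE k θ (Gf k a) (Gf k a (2 * θ)) * DD k T U ≤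
      2 * (a ^ (k ^ 2))⁻¹ * (C1 * M0 k T U) := by
    calc 2 * EE k θ (Gf k a) (Gf k a (2 * θ)) * DD k T U ≤ 2 * (a ^ (k ^ 2))⁻¹ * DD k T U := by gcongr
      _ ≤ _ := by gcongr
  have g6 : (Gf k a (2 * θ) + (a ^ (k ^ 2))⁻¹) * M0 k T U ≤
      (F * (a ^ (k ^ 2))⁻¹ + (a ^ (k ^ 2))⁻¹) * M0 k T U := by gcongr
  calc Ja k T U a ≤ _ := g1
    _ ≤ (F * (a ^ (k ^ 2))⁻¹ + (a ^ (k ^ 2))⁻¹) * M0 k T U +
        2 * (a ^ (k ^ 2))⁻¹ * (C1 * M0 k T U) := add_le_add g6 g5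
    _ = _ := by ring

/-- the mean of the logarithmic counting function, as an integral -/
def EN (k : ℕ) (T U A : ℝ) : ℝ≥0∞ :=
  ∫⁻ y : ℝ, ENNReal.ofReal (logcount (((1 / 2 : ℝ) : ℂ) + y * I) (A / Real.log T) *
    (‖riemannZeta (((1 / 2 : ℝ) : ℂ) + y * I)‖ ^ (2 * k : ℝ) * wt T U y))

/-- The deficit. -/
theorem deficit (hk : 1 ≤ k) {u : ℝ} (hu : 0 < u) : ∃ C : ℝ, ∀ A : ℝ, 0 < A →
    ∀ᶠ T : ℝ in atTop, ∀ U : ℝ, T ^ u ≤ U → U ≤ T / Real.log T →
      EN k T U A ≤ ENNReal.ofReal ((A / Real.pi - k / Real.pi * Real.log A + C) * M0 k T U) := by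
  have hπ := Real.pi_pos
  have hk1 : (1 : ℝ) ≤ k := by exact_mod_cast hk
  have hβ : (0 : ℝ) < 2 * k := by linarith
  obtain ⟨C, hC, hdec⟩ := Ja_decay hk hu
  refine ⟨1 / (Real.pi * k) * Real.log C + 1, fun A hA => ?_⟩
  filter_upwards [hdec A hA, main_log hβ hA one_pos, eventually_ge_atTop 3] with T h1 h2 h3 U hU1 hU2
  have hAd := adm_of hu h3 hU1 hU2
  obtain ⟨hQ0, -, g1⟩ := h2 U hAd
  have hM := M0_nonneg k T U
  rw [← M0_eq] at g1
  refine g1.trans (ENNReal.ofReal_le_ofReal ?_)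
  apply mul_le_mul_of_nonneg_right _ hM
  have hM0 : 0 < M0 k T U := by
    rcases hM.lt_or_eq with h | h
    · exact h
    · exfalso
      rw [QB_even, ← h, div_zero] at hQ0
      exact lt_irrefl _ hQ0
  have g2 : QB (2 * k) T U A ≤ C * (A ^ (k ^ 2))⁻¹ := by
    rw [QB_even, div_le_iff₀ hM0]
    exact h1 U hU1 hU2
  have g3 : Real.log (QB (2 * k) T U A) ≤ Real.log C - k ^ 2 * Real.log A := by
    refine (Real.log_le_log hQ0 g2).trans (le_of_eq ?_)
    rw [Real.log_mul hC.ne' (by positivity), Real.log_inv, Real.log_pow]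
    push_cast
    ring
  have e1 : 2 / (Real.pi * (2 * k)) = 1 / (Real.pi * k) := by field_simp
  have g4 : 1 / (Real.pi * k) * Real.log (QB (2 * k) T U A) ≤
      1 / (Real.pi * k) * (Real.log C - k ^ 2 * Real.log A) :=
    mul_le_mul_of_nonneg_left g3 (by positivity)
  have e2 : 1 / (Real.pi * k) * (Real.log C - k ^ 2 * Real.log A) =
      1 / (Real.pi * k) * Real.log C - k / Real.pi * Real.log A := by
    field_simp
  rw [e1]
  rw [e2] at g4
  linarith

/-- The zeros decide the order. -/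
theorem criterion (hk : 1 ≤ k) {u : ℝ} (hu : 0 < u) {θ : ℝ} (h0 : 0 ≤ θ) (hθ : θ < u)
    (hθk : 2 * θ < k) {A : ℝ} (hA : 0 < A) {δ : ℝ} (hδ : 0 < δ) : ∃ C : ℝ, 0 < C ∧
    ∀ᶠ T : ℝ in atTop, ∀ U : ℝ, T ^ u ≤ U → U ≤ T / Real.log T →
      ENNReal.ofReal (((1 - 2 * θ / k) * (A / Real.pi) + δ) * M0 k T U) ≤ EN k T U A →
      M0 k T U ≤ C * Q80.DC.NN k T U := by
  have hπ := Real.pi_pos
  have hk1 : (1 : ℝ) ≤ k := by exact_mod_cast hk
  have hk0 : (0 : ℝ) < k := by linarith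
  have hβ : (0 : ℝ) < 2 * k := by linarith
  set η := Real.exp (-(2 * A * θ)) * (Real.pi * k * δ / 2) with hη
  have hη0 : 0 < η := by positivity
  obtain ⟨T₀, hT₀⟩ := off_line hk hu A h0 hθ hθk (half_pos hη0)
  set W := (A ^ (k ^ 2))⁻¹ with hW
  have hW0 : 0 < W := by positivity
  have hak := ak_pos hk
  have hpi : 0 < √Real.pi := Real.sqrt_pos.2 hπ
  refine ⟨4 * W / η * (√Real.pi * ak k), by positivity, ?_⟩
  filter_upwards [eventually_ge_atTop T₀, main_log hβ hA (half_pos hδ), eventually_ge_atTop 3]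
    with T h1 h2 h3 U hU1 hU2 hyp
  have hAd := adm_of hu h3 hU1 hU2
  obtain ⟨hQ0, hn, g1⟩ := h2 U hAd
  have hM := M0_nonneg k T U
  rw [← M0_eq] at g1
  have hM0 : 0 < M0 k T U := by
    rcases hM.lt_or_eq with h | h
    · exact h
    · exfalso
      rw [QB_even, ← h, div_zero] at hQ0
      exact lt_irrefl _ hQ0
  have g2 := hyp.trans g1
  rw [ENNReal.ofReal_le_ofReal_iff (by positivity)] at g2
  have g3 := le_of_mul_le_mul_right g2 hM0
  set Q := QB (2 * k) T U A with hQ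
  have e1 : 2 / (Real.pi * (2 * k)) = 1 / (Real.pi * k) := by field_simp
  rw [e1] at g3
  -- a lower bound for the quotient
  have g4 : -(2 * A * θ) + Real.pi * k * δ / 2 ≤ Real.log Q := by
    have g5 : -(2 * θ / k) * (A / Real.pi) + δ / 2 ≤ 1 / (Real.pi * k) * Real.log Q := by linarith
    have g6 := mul_le_mul_of_nonneg_left g5 (show 0 ≤ Real.pi * k by positivity)
    have e2 : Real.pi * k * (-(2 * θ / k) * (A / Real.pi) + δ / 2) =
        -(2 * A * θ) + Real.pi * k * δ / 2 := by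
      field_simp
    have e3 : Real.pi * k * (1 / (Real.pi * k) * Real.log Q) = Real.log Q := by
      field_simp
    rw [e2, e3] at g6
    exact g6
  have g5 : Real.exp (-(2 * A * θ)) + η ≤ Q := by
    rw [← Real.exp_log hQ0]
    refine le_trans ?_ (Real.exp_le_exp.2 g4)
    rw [Real.exp_add, hη]
    have := Real.add_one_le_exp (Real.pi * k * δ / 2)
    have hE := Real.exp_pos (-(2 * A * θ))
    nlinarith
  have g6 := (hT₀ T h1 U hU1 hU2).2
  have g7 : Gf k A (2 * θ) ≤ Real.exp (-(2 * A * θ)) := Gf_le_exp k hA.le hθk.le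
  have g8 : Ja k T U A = Q * M0 k T U := by
    rw [hQ, QB_even]
    field_simp
  have hD0 := DD_nonneg hk hAd
  have g9 : EE k θ (Gf k A) (Gf k A (2 * θ)) ≤ W := EE_up hk h0 hθk.le hA
  have g10 : 2 * EE k θ (Gf k A) (Gf k A (2 * θ)) * DD k T U ≤ 2 * W * DD k T U := by gcongr
  have g11 : (Real.exp (-(2 * A * θ)) + η) * M0 k T U ≤
      (Real.exp (-(2 * A * θ)) + η / 2) * M0 k T U + 2 * W * DD k T U := by
    calc (Real.exp (-(2 * A * θ)) + η) * M0 k T U ≤ Q * M0 k T U := by gcongr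
      _ ≤ _ := by
        rw [← g8]
        refine g6.trans (add_le_add ?_ g10)
        gcongr
  have g12 : η / 2 * M0 k T U ≤ 2 * W * DD k T U := by nlinarith
  have e4 : 4 * W / η * (√Real.pi * ak k) * Q80.DC.NN k T U = 4 * W / η * DD k T U := by
    unfold DD
    ring
  rw [e4, div_mul_eq_mul_div, le_div_iff₀ hη0]
  nlinarith

end

end Q97.RH
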