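import Pool.Agent.Q97.RH.Wq

set_option autoImplicit false

open Filter MeasureTheory Metric Set Topology Complex
open scoped ENNReal

namespace Q97.RH

open Q97.RB Q97.MM Q97.RE

noncomputable section

/-- From `(s - 1) ζ(s)` to `ζ(s)`. -/
theorem tilted_var {β : ℝ} (hβ : 0 < β) {A : ℝ} (hA : 0 < A) {B : ℝ} (hB : 0 ≤ B)
    {Kf : ℝ → ℝ → ℝ} (hK : ∀ᶠ T : ℝ in atTop, ∀ U : ℝ, Adm T U → 0 ≤ Kf T U ∧ Kf T U ≤ B)
    (hcore : ∀ e : ℝ, 0 < e → ∀ᶠ T : ℝ in atTop, ∀ U : ℝ, Adm T U →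
      ∫⁻ y : ℝ, ENNReal.ofReal (‖FB β T U (((1 / 2 : ℝ) : ℂ) + y * I)‖ ^ β *
        Real.exp (β * logcount (((1 / 2 : ℝ) : ℂ) + y * I) (A / Real.log T))) ≤
      ENNReal.ofReal ((Kf T U + e) * HB β T U (1 / 2))) {ε : ℝ} (hε : 0 < ε) :
    ∀ᶠ T : ℝ in atTop, ∀ U : ℝ, Adm T U → 0 < MB β T U (1 / 2) ∧
      ∫⁻ y : ℝ, ENNReal.ofReal (Real.exp (β * logcount (((1 / 2 : ℝ) : ℂ) + y * I)
        (A / Real.log T)) * (‖riemannZeta (((1 / 2 : ℝ) : ℂ) + y * I)‖ ^ β * wt T U y)) ≤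
      ENNReal.ofReal ((Kf T U + ε) * MB β T U (1 / 2)) := by
  -- the constants
  have hlim : Tendsto (fun e : ℝ => (B + e) / ((1 - e) ^ β * (1 - 2 * e))) (𝓝[>] 0) (𝓝 B) := by
    have h1 : ContinuousAt (fun e : ℝ => (B + e) / ((1 - e) ^ β * (1 - 2 * e))) 0 := by
      have h2 : ContinuousAt (fun e : ℝ => (1 - e) ^ β) 0 :=
        ContinuousAt.rpow_const (by fun_prop) (Or.inl (by norm_num))
      refine ContinuousAt.div (by fun_prop) (h2.mul (by fun_prop)) ?_
      norm_num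
    have h3 := h1.tendsto
    norm_num at h3
    exact h3.mono_left nhdsWithin_le_nhds
  obtain ⟨e, he1, he0, he2⟩ : ∃ e : ℝ, (B + e) / ((1 - e) ^ β * (1 - 2 * e)) < B + ε / 2 ∧ 0 < e ∧
      e < 1 / 4 := by
    have h1 := hlim.eventually (gt_mem_nhds (show B < B + ε / 2 by linarith))
    have h2 : ∀ᶠ e : ℝ in 𝓝[>] 0, 0 < e := self_mem_nhdsWithin
    have h3 : ∀ᶠ e : ℝ in 𝓝[>] 0, e < 1 / 4 :=
      nhdsWithin_le_nhds (gt_mem_nhds (by norm_num))
    exact (h1.and (h2.and h3)).exists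
  obtain ⟨c, hc, hc'⟩ := H0_lower hβ
  have hsm : Tendsto (fun T : ℝ => Real.pi / T ^ 3) atTop (𝓝 0) :=
    (tendsto_pow_atTop (n := 3) (α := ℝ) (by norm_num)).const_div_atTop _
  have hcε : 0 < ε / 2 * (c / 2) := by positivity
  filter_upwards [hcore e he0, hK, F1 hβ 0 he0,
    (log_div_tendsto A).eventually (gt_mem_nhds (show (0 : ℝ) < 1 / 4 by norm_num)),
    Q97.BS.tail ⌈2 * β⌉₊ 3 (2 ^ β * 180 ^ β) he0, hsm.eventually (gt_mem_nhds hcε),
    eventually_ge_atTop 3] with T h1 hKT h2 h3 h4 h5 hT U h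
  obtain ⟨hK0, hKB⟩ := hKT U h
  set K := Kf T U with hKdef
  have hT0 : 0 < T := by linarith
  have hU := h.pos
  have hL := h.log
  have hr0 : 0 < A / Real.log T := by positivity
  rw [abs_of_pos hr0] at h3
  set r := A / Real.log T with hr
  have hV0 := HB_pos hβ h (x := 1 / 2) (by norm_num) (by norm_num)
  set H := HB β T U (1 / 2) with hH
  set M := MB β T U (1 / 2) with hM
  have hM0 : 0 ≤ M := MB_nonneg _ _ _ _
  have hTβ : 0 < T ^ β := by positivity
  -- `H (1 - 2e) ≤ T ^ β M`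
  have g1 : H * (1 - 2 * e) ≤ T ^ β * M := by
    have g2 := (abs_le.mp (h2 U h)).2
    rw [GB_zero hβ h] at g2
    have g3 : JB β T U 0 = T ^ β * M / H := by
      unfold JB
      rw [zero_div, add_zero]
    rw [g3] at g2
    have g4 : 1 - 2 * e ≤ T ^ β * M / H := by linarith
    rw [le_div_iff₀ hV0] at g4
    linarith
  have g5 : c / 2 ≤ M := by
    have g6 := hc' T U h
    have g7 : T ^ β * (c / 2) ≤ T ^ β * M := by
      have g8 : c * (T ^ β * U) * (1 / 2) ≤ H * (1 - 2 * e) := by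
        have : 0 ≤ c * (T ^ β * U) := by positivity
        nlinarith
      have g9 : T ^ β * c ≤ c * (T ^ β * U) := by
        have : T ^ β * 1 ≤ T ^ β * U := mul_le_mul_of_nonneg_left h.2.1 hTβ.le
        nlinarith
      linarith
    exact le_of_mul_le_mul_left g7 hTβ
  refine ⟨by linarith [half_pos hc], ?_⟩
  -- the two regions
  set Φ : ℝ → ℝ≥0∞ := fun y => ENNReal.ofReal (Real.exp (β * logcount (((1 / 2 : ℝ) : ℂ) + y * I) r) *
    (‖riemannZeta (((1 / 2 : ℝ) : ℂ) + y * I)‖ ^ β * wt T U y)) with hΦ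
  set D : ℝ := ((1 - e) * T) ^ β with hD
  have hD0 : 0 < D := by
    have : 0 < (1 - e) * T := mul_pos (by linarith) hT0
    positivity
  have hpt : ∀ y : ℝ, Φ y ≤ ENNReal.ofReal D⁻¹ * ENNReal.ofReal (‖FB β T U (((1 / 2 : ℝ) : ℂ) + y * I)‖ ^ β *
        Real.exp (β * logcount (((1 / 2 : ℝ) : ℂ) + y * I) r)) +
        ENNReal.ofReal (Q97.BS.tR 3 T y) := by
    intro y
    by_cases hy : |y - T| ≤ e * T
    · refine le_trans ?_ le_self_add
      rw [← ENNReal.ofReal_mul (by positivity)]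
      apply ENNReal.ofReal_le_ofReal
      rw [FB_pow hβ hU]
      have hexp : Real.exp (((1 / 2 : ℝ) - 1 / 2) ^ 2 / U ^ 2) = 1 := by norm_num
      rw [hexp, one_mul]
      set z : ℂ := ((1 / 2 : ℝ) : ℂ) + y * I with hz
      have hne : z ≠ 1 := ne_one_of_re (by norm_num) y
      have hy1 : (1 - e) * T ≤ y := by linarith [(abs_le.mp hy).1]
      have a1 : (1 - e) * T ≤ ‖z - 1‖ := by
        have := Complex.abs_im_le_norm (z - 1)
        have e1 : (z - 1).im = y := by rw [hz]; simp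
        rw [e1] at this
        exact hy1.trans ((le_abs_self y).trans this)
      have a2 : D * ‖riemannZeta z‖ ^ β ≤ ‖Z1 z‖ ^ β := by
        rw [Z1_of_ne hne, norm_mul, Real.mul_rpow (norm_nonneg _) (norm_nonneg _), hD]
        have : ((1 - e) * T) ^ β ≤ ‖z - 1‖ ^ β :=
          Real.rpow_le_rpow (mul_nonneg (by linarith) hT0.le) a1 hβ.le
        gcongr
      have a3 : ‖riemannZeta z‖ ^ β ≤ D⁻¹ * ‖Z1 z‖ ^ β := by
        rw [le_inv_mul_iff₀ hD0]
        exact a2
      have hw := wt_pos T U y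
      calc Real.exp (β * logcount z r) * (‖riemannZeta z‖ ^ β * wt T U y)
          ≤ Real.exp (β * logcount z r) * ((D⁻¹ * ‖Z1 z‖ ^ β) * wt T U y) := by gcongr
        _ = _ := by ring
    · push Not at hy
      refine le_trans ?_ le_add_self
      apply ENNReal.ofReal_le_ofReal
      have b1 : e * (U * Real.log T) < |y - T| := by
        refine lt_of_le_of_lt ?_ hy
        have := h.2.2
        rw [le_div_iff₀ (by linarith)] at this
        exact mul_le_mul_of_nonneg_left this he0.le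
      have b2 := far_pt hβ hr0 h3.le y
      have hw := wt_pos T U y
      refine le_trans ?_ (h4 U h y b1)
      calc Real.exp (β * logcount (((1 / 2 : ℝ) : ℂ) + y * I) r) *
            (‖riemannZeta (((1 / 2 : ℝ) : ℂ) + y * I)‖ ^ β * wt T U y)
          = (‖riemannZeta (((1 / 2 : ℝ) : ℂ) + y * I)‖ ^ β *
            Real.exp (β * logcount (((1 / 2 : ℝ) : ℂ) + y * I) r)) * wt T U y := by ring
        _ ≤ _ := by gcongr
  obtain ⟨t1, t2⟩ := Q97.BS.tR_int 3 hT0
  have htm : Measurable (fun y => ENNReal.ofReal (Q97.BS.tR 3 T y)) := by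
    unfold Q97.BS.tR
    fun_prop
  have htn : ∀ y, 0 ≤ Q97.BS.tR 3 T y := fun y => by unfold Q97.BS.tR; positivity
  calc ∫⁻ y : ℝ, Φ y ≤ ∫⁻ y : ℝ, (ENNReal.ofReal D⁻¹ * ENNReal.ofReal (‖FB β T U (((1 / 2 : ℝ) : ℂ) + y * I)‖ ^ β *
        Real.exp (β * logcount (((1 / 2 : ℝ) : ℂ) + y * I) r)) +
        ENNReal.ofReal (Q97.BS.tR 3 T y)) := lintegral_mono hpt
    _ = ENNReal.ofReal D⁻¹ * (∫⁻ y : ℝ, ENNReal.ofReal (‖FB β T U (((1 / 2 : ℝ) : ℂ) + y * I)‖ ^ β *
        Real.exp (β * logcount (((1 / 2 : ℝ) : ℂ) + y * I) r))) +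
        ENNReal.ofReal (∫ y : ℝ, Q97.BS.tR 3 T y) := by
        rw [lintegral_add_right _ htm, lintegral_const_mul' _ _ ENNReal.ofReal_ne_top,
          ofReal_integral_eq_lintegral_ofReal t1 (Eventually.of_forall htn)]
    _ ≤ ENNReal.ofReal D⁻¹ * ENNReal.ofReal ((K + e) * H) + ENNReal.ofReal (ε / 2 * M) := by
        gcongr
        · exact h1 U h
        · refine t2.trans (h5.le.trans ?_)
          gcongr
    _ ≤ ENNReal.ofReal ((K + ε / 2) * M) + ENNReal.ofReal (ε / 2 * M) := by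
        gcongr
        rw [← ENNReal.ofReal_mul (by positivity)]
        apply ENNReal.ofReal_le_ofReal
        have c1 : (1 - e) ^ β * T ^ β = D := by
          rw [hD, Real.mul_rpow (by linarith) hT0.le]
        have c2 : 0 < (1 - e) ^ β := Real.rpow_pos_of_pos (by linarith) _
        have c3 : 0 < 1 - 2 * e := by linarith
        have c4 : D⁻¹ * ((K + e) * H) ≤ (K + e) / ((1 - e) ^ β * (1 - 2 * e)) * M := by
          rw [← c1, inv_mul_le_iff₀ (by positivity)]
          have c5 : (1 - e) ^ β * T ^ β * ((K + e) / ((1 - e) ^ β * (1 - 2 * e)) * M) =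
              (K + e) / (1 - 2 * e) * (T ^ β * M) := by
            field_simp
          rw [c5]
          calc (K + e) * H = (K + e) / (1 - 2 * e) * (H * (1 - 2 * e)) := by
                rw [div_mul_eq_mul_div, eq_div_iff c3.ne']
                ring
            _ ≤ _ := by gcongr
        refine c4.trans ?_
        apply mul_le_mul_of_nonneg_right _ hM0
        have d0 : 0 < (1 - e) ^ β * (1 - 2 * e) := by positivity
        have d1 : (1 - e) ^ β * (1 - 2 * e) ≤ 1 := by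
          have : (1 - e) ^ β ≤ 1 := Real.rpow_le_one (by linarith) (by linarith) hβ.le
          nlinarith
        rw [div_lt_iff₀ d0] at he1
        rw [div_le_iff₀ d0]
        nlinarith
    _ = ENNReal.ofReal ((K + ε) * M) := by
        rw [← ENNReal.ofReal_add (by positivity) (by positivity)]
        congr 1
        ring


end

end Q97.RH
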