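import Pool.Agent.Q97.RE.Ct
import Pool.Agent.Q97.RG.Pf

set_option autoImplicit false

open Filter MeasureTheory Metric Set Topology Complex
open scoped ENNReal

namespace Q97.RH

open Q97.RB Q97.MM Q97.RE

noncomputable section

/-- the logarithm of the weight -/
def uq (β L A m x : ℝ) : ℝ := m * L / A * |x - 1 / 2| + β * L * max 0 (1 / 2 - x)

theorem uq_cont (β L A m : ℝ) : Continuous (uq β L A m) := by unfold uq; fun_prop

theorem interp {h0 q θ : ℝ} (hh : 0 < h0) (hq : 0 < q) :
    h0 ^ (1 - θ) * (q * h0) ^ θ = q ^ θ * h0 := by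
  rw [Real.mul_rpow hq.le hh.le, mul_left_comm, ← Real.rpow_add hh, sub_add_cancel, Real.rpow_one]

/-- The weighted bound on the lines near the critical line. -/
theorem HB_q {β : ℝ} (hβ : 0 < β) {A : ℝ} (hA : 0 < A) {ε : ℝ} (hε : 0 < ε) :
    ∀ᶠ T : ℝ in atTop, ∀ U : ℝ, Adm T U → 0 < GB β T U A ∧
      ∀ x : ℝ, |x - 1 / 2| ≤ A / Real.log T →
      Real.exp (-uq β (Real.log T) A (Real.log (GB β T U A)) x) * HB β T U x ≤
        (1 + ε) * HB β T U (1 / 2) := by
  set c0 := Real.exp (-(β * A) / 2) / 2 with hc0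
  have hc0p : 0 < c0 := by positivity
  set E := Real.exp (β * A) with hE
  have hE0 : 0 < E := Real.exp_pos _
  filter_upwards [Q97.RG.GB_low hβ hA hc0p, GB_neg_le hβ hA.le (show 0 < ε * E * c0 by positivity),
    (log_div_tendsto A).eventually (gt_mem_nhds (show (0 : ℝ) < 1 / 4 by norm_num))]
    with T h1 h2 h3 U h
  have hL := h.log
  have hL0 : 0 < Real.log T := by linarith
  have hr0 : 0 < A / Real.log T := by positivity
  rw [abs_of_pos hr0] at h3
  set L := Real.log T with hLd
  set r := A / L with hr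
  have g1 := h1 U h
  have g2 := h2 U h
  set q := GB β T U A with hq
  have hqc : c0 ≤ q := by rw [hc0] at g1 ⊢; linarith
  have hq0 : 0 < q := by linarith
  have hH0 := HB_pos hβ h (x := 1 / 2) (by norm_num) (by norm_num)
  have hHr : HB β T U (1 / 2 + r) = q * HB β T U (1 / 2) := by
    rw [hq]
    unfold GB
    rw [div_mul_cancel₀ _ hH0.ne']
  refine ⟨hq0, fun x hx => ?_⟩
  have hmr : ∀ θ : ℝ, Real.log q * L / A * (θ * r) = θ * Real.log q := by
    intro θ
    rw [hr]
    field_simp
  rcases le_total (1 / 2) x with hx2 | hx2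
  · -- to the right
    set θ := (x - 1 / 2) / r with hθ
    have hθr : θ * r = x - 1 / 2 := by rw [hθ]; field_simp
    rw [abs_of_nonneg (by linarith)] at hx
    have hθ0 : 0 ≤ θ := div_nonneg (by linarith) hr0.le
    have hθ1 : θ ≤ 1 := by rw [hθ, div_le_one hr0]; exact hx
    have hlc := LI_logconv (FB_diff β T U) hβ (FB_gd hβ T h.pos) (x₁ := 1 / 2) (x₂ := 1 / 2 + r)
      (θ := θ) (by norm_num) (by linarith) (by linarith) hθ0 hθ1 hH0
      (HB_pos hβ h (by linarith) (by linarith))
    have e1 : (1 - θ) * (1 / 2) + θ * (1 / 2 + r) = x := by linarith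
    rw [e1] at hlc
    change HB β T U x ≤ HB β T U (1 / 2) ^ (1 - θ) * HB β T U (1 / 2 + r) ^ θ at hlc
    rw [hHr, interp hH0 hq0] at hlc
    have e2 : uq β L A (Real.log q) x = θ * Real.log q := by
      unfold uq
      rw [max_eq_left (by linarith), abs_of_nonneg (by linarith), ← hθr, hmr, mul_zero, add_zero]
    rw [e2]
    have e3 : Real.exp (-(θ * Real.log q)) * q ^ θ = 1 := by
      rw [Real.rpow_def_of_pos hq0, ← Real.exp_add, mul_comm θ, neg_add_cancel, Real.exp_zero]
    calc Real.exp (-(θ * Real.log q)) * HB β T U x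
        ≤ Real.exp (-(θ * Real.log q)) * (q ^ θ * HB β T U (1 / 2)) :=
          mul_le_mul_of_nonneg_left hlc (Real.exp_pos _).le
      _ = HB β T U (1 / 2) := by rw [← mul_assoc, e3, one_mul]
      _ ≤ _ := by nlinarith
  · -- to the left
    set θ := (1 / 2 - x) / r with hθ
    have hθr : θ * r = 1 / 2 - x := by rw [hθ]; field_simp
    rw [abs_of_nonpos (by linarith)] at hx
    have hθ0 : 0 ≤ θ := div_nonneg (by linarith) hr0.le
    have hθ1 : θ ≤ 1 := by rw [hθ, div_le_one hr0]; linarith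
    have hp := HB_pos hβ h (x := 1 / 2 - r) (by linarith) (by linarith)
    have hlc := LI_logconv (FB_diff β T U) hβ (FB_gd hβ T h.pos) (x₁ := 1 / 2 - r) (x₂ := 1 / 2)
      (θ := 1 - θ) (by linarith) (by linarith) (by norm_num) (by linarith) (by linarith) hp hH0
    have e1 : (1 - (1 - θ)) * (1 / 2 - r) + (1 - θ) * (1 / 2) = x := by linarith
    rw [e1, sub_sub_cancel] at hlc
    change HB β T U x ≤ HB β T U (1 / 2 - r) ^ θ * HB β T U (1 / 2) ^ (1 - θ) at hlc
    set K := E * q * (1 + ε) with hK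
    have hK0 : 0 < K := by positivity
    have hHl : HB β T U (1 / 2 - r) ≤ K * HB β T U (1 / 2) := by
      have g3 : GB β T U (-A) ≤ K := by
        refine g2.trans ?_
        rw [hK]
        have : ε * E * c0 ≤ ε * E * q := by gcongr
        nlinarith
      unfold GB at g3
      rwa [div_le_iff₀ hH0, neg_div, ← sub_eq_add_neg] at g3
    have h4 : HB β T U x ≤ K ^ θ * HB β T U (1 / 2) := by
      refine hlc.trans ?_
      rw [mul_comm, ← interp hH0 hK0]
      gcongr
    have e2 : uq β L A (Real.log q) x = θ * Real.log q + β * A * θ := by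
      unfold uq
      rw [max_eq_right (by linarith), abs_of_nonpos (by linarith), neg_sub, ← hθr, hmr]
      rw [hr]
      field_simp
    have e3 : Real.exp (-(θ * Real.log q + β * A * θ)) * K ^ θ = (1 + ε) ^ θ := by
      have h5 : K ^ θ = Real.exp (θ * Real.log q + β * A * θ) * (1 + ε) ^ θ := by
        rw [hK, Real.mul_rpow (by positivity) (by positivity), Real.mul_rpow hE0.le hq0.le,
          Real.exp_add, hE, ← Real.exp_mul, Real.rpow_def_of_pos hq0, mul_comm (Real.log q) θ]
        ring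
      rw [h5, ← mul_assoc, ← Real.exp_add, neg_add_cancel, Real.exp_zero, one_mul]
    have e4 : (1 + ε) ^ θ ≤ 1 + ε := by
      calc (1 + ε) ^ θ ≤ (1 + ε) ^ (1 : ℝ) := Real.rpow_le_rpow_of_exponent_le (by linarith) hθ1
        _ = _ := Real.rpow_one _
    rw [e2]
    calc Real.exp (-(θ * Real.log q + β * A * θ)) * HB β T U x
        ≤ Real.exp (-(θ * Real.log q + β * A * θ)) * (K ^ θ * HB β T U (1 / 2)) :=
          mul_le_mul_of_nonneg_left h4 (Real.exp_pos _).le
      _ = (1 + ε) ^ θ * HB β T U (1 / 2) := by rw [← mul_assoc, e3]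
      _ ≤ _ := mul_le_mul_of_nonneg_right e4 hH0.le

/-- The weighted circle means of `F`. -/
theorem circle_q {β : ℝ} (hβ : 0 < β) {A : ℝ} (hA : 0 < A) {ε : ℝ} (hε : 0 < ε) :
    ∀ᶠ T : ℝ in atTop, ∀ U : ℝ, Adm T U → 0 < GB β T U A ∧
      ∫⁻ y : ℝ, ENNReal.ofReal (Real.circleAverage (fun z => ‖FB β T U z‖ ^ β *
        Real.exp (-uq β (Real.log T) A (Real.log (GB β T U A)) z.re))
          (((1 / 2 : ℝ) : ℂ) + y * I) (A / Real.log T)) ≤
      ENNReal.ofReal ((1 + ε) * HB β T U (1 / 2)) := by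
  filter_upwards [HB_q hβ hA hε,
    (log_div_tendsto A).eventually (gt_mem_nhds (show (0 : ℝ) < 1 / 4 by norm_num))]
    with T h1 h3 U h
  refine ⟨(h1 U h).1, ?_⟩
  have h1 := (h1 U h).2
  have hL := h.log
  have hπ := Real.pi_pos
  have hr0 : 0 < A / Real.log T := by positivity
  rw [abs_of_pos hr0] at h3
  set r := A / Real.log T with hr
  set m := Real.log (GB β T U A) with hm
  rw [circ_int_w (FB_diff β T U) hβ (FB_gd hβ T h.pos) (x := 1 / 2) (r := r) hr0
    (by linarith) (by linarith) (ω := fun x => Real.exp (-uq β (Real.log T) A m x))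
    (by have := uq_cont β (Real.log T) A m; fun_prop) (fun t => (Real.exp_pos _).le)]
  have h4 : ∫⁻ θ in Ioc 0 (2 * Real.pi), ENNReal.ofReal
      (Real.exp (-uq β (Real.log T) A m (1 / 2 + r * Real.cos θ)) *
      LI (FB β T U) β (1 / 2 + r * Real.cos θ)) ≤
      ∫⁻ _ in Ioc 0 (2 * Real.pi), ENNReal.ofReal ((1 + ε) * HB β T U (1 / 2)) := by
    refine setLIntegral_mono' measurableSet_Ioc fun θ _ => ENNReal.ofReal_le_ofReal ?_
    refine h1 _ ?_
    rw [add_sub_cancel_left, abs_mul, abs_of_pos hr0]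
    exact mul_le_of_le_one_right hr0.le (Real.abs_cos_le_one θ)
  calc ENNReal.ofReal ((2 * Real.pi)⁻¹) * ∫⁻ θ in Ioc 0 (2 * Real.pi),
        ENNReal.ofReal (Real.exp (-uq β (Real.log T) A m (1 / 2 + r * Real.cos θ)) *
          LI (FB β T U) β (1 / 2 + r * Real.cos θ))
      ≤ ENNReal.ofReal ((2 * Real.pi)⁻¹) * ∫⁻ _ in Ioc 0 (2 * Real.pi),
        ENNReal.ofReal ((1 + ε) * HB β T U (1 / 2)) := by gcongr
    _ = ENNReal.ofReal ((1 + ε) * HB β T U (1 / 2)) := by
        rw [setLIntegral_const, Real.volume_Ioc, sub_zero, mul_comm, mul_assoc,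
          ← ENNReal.ofReal_mul (by positivity), mul_inv_cancel₀ (by positivity), ENNReal.ofReal_one,
          mul_one]

theorem cos_abs_int : ∫ θ in (0 : ℝ)..(2 * Real.pi), |Real.cos θ| = 4 := by
  have hc1 : Continuous fun θ : ℝ => max 0 (-Real.cos θ) := by fun_prop
  have e1 : ∀ θ : ℝ, |Real.cos θ| = Real.cos θ + 2 * max 0 (-Real.cos θ) := by
    intro θ
    rcases le_total 0 (Real.cos θ) with h | h
    · rw [abs_of_nonneg h, max_eq_left (by linarith)]
      ring
    · rw [abs_of_nonpos h, max_eq_right (by linarith)]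
      ring
  simp only [e1]
  rw [intervalIntegral.integral_add (by exact Real.continuous_cos.intervalIntegrable _ _)
    ((hc1.const_mul 2).intervalIntegrable _ _), intervalIntegral.integral_const_mul, cos_neg_int,
    integral_cos, Real.sin_two_pi, Real.sin_zero]
  norm_num

/-- The mean of the logarithm of the weight over a circle centred on the line. -/
theorem avg_uq (β L A m y : ℝ) {r : ℝ} (hr : 0 < r) :
    Real.circleAverage (fun z : ℂ => uq β L A m z.re) (((1 / 2 : ℝ) : ℂ) + y * I) r =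
      2 / Real.pi * (m * L / A * r) + β * L * r / Real.pi := by
  have hπ := Real.pi_pos
  rw [Real.circleAverage_def]
  have e1 : ∀ θ : ℝ, uq β L A m (circleMap (((1 / 2 : ℝ) : ℂ) + y * I) r θ).re =
      (m * L / A * r) * |Real.cos θ| + (β * L * r) * max 0 (-Real.cos θ) := by
    intro θ
    have h1 : (circleMap (((1 / 2 : ℝ) : ℂ) + y * I) r θ).re = 1 / 2 + r * Real.cos θ := by
      have hcm : circleMap (((1 / 2 : ℝ) : ℂ) + y * I) r θ =
          ((1 / 2 + r * Real.cos θ : ℝ) : ℂ) + ((y + r * Real.sin θ : ℝ) : ℂ) * I := by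
        rw [circleMap, Complex.exp_mul_I]
        push_cast
        ring
      rw [hcm, Complex.add_re, Complex.ofReal_re, Complex.mul_I_re, Complex.ofReal_im, neg_zero,
        add_zero]
    unfold uq
    rw [h1, add_sub_cancel_left, abs_mul, abs_of_pos hr, mul_assoc (β * L) r, mul_assoc (m * L / A) r,
      mul_max_of_nonneg _ _ hr.le]
    congr 3
    · ring
    · ring
  simp only [e1]
  have hc1 : Continuous fun θ : ℝ => max 0 (-Real.cos θ) := by fun_prop
  have hc2 : Continuous fun θ : ℝ => |Real.cos θ| := by fun_prop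
  rw [intervalIntegral.integral_add ((hc2.const_mul _).intervalIntegrable _ _)
    ((hc1.const_mul _).intervalIntegrable _ _), intervalIntegral.integral_const_mul,
    intervalIntegral.integral_const_mul, cos_neg_int, cos_abs_int, smul_eq_mul]
  field_simp
  ring

/-- The inequality for `(s - 1) ζ(s)`. -/
theorem core_q {β : ℝ} (hβ : 0 < β) {A : ℝ} (hA : 0 < A) {ε : ℝ} (hε : 0 < ε) :
    ∀ᶠ T : ℝ in atTop, ∀ U : ℝ, Adm T U → 0 < GB β T U A ∧
      ∫⁻ y : ℝ, ENNReal.ofReal (‖FB β T U (((1 / 2 : ℝ) : ℂ) + y * I)‖ ^ β *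
        Real.exp (β * logcount (((1 / 2 : ℝ) : ℂ) + y * I) (A / Real.log T))) ≤
      ENNReal.ofReal (Real.exp (β * A / Real.pi) * GB β T U A ^ (2 / Real.pi) * (1 + ε) *
        HB β T U (1 / 2)) := by
  have hπ := Real.pi_pos
  filter_upwards [circle_q hβ hA hε] with T h1 U h
  obtain ⟨hq0, h1⟩ := h1 U h
  refine ⟨hq0, ?_⟩
  have hL := h.log
  have hL0 : 0 < Real.log T := by linarith
  have hr0 : 0 < A / Real.log T := by positivity
  set r := A / Real.log T with hr
  set q := GB β T U A with hq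
  set K := Real.exp (β * A / Real.pi) * q ^ (2 / Real.pi) with hK
  have hK0 : 0 < K := by positivity
  have hpt : ∀ y : ℝ, ENNReal.ofReal (‖FB β T U (((1 / 2 : ℝ) : ℂ) + y * I)‖ ^ β *
      Real.exp (β * logcount (((1 / 2 : ℝ) : ℂ) + y * I) r)) ≤ ENNReal.ofReal K *
        ENNReal.ofReal (Real.circleAverage (fun z => ‖FB β T U z‖ ^ β *
          Real.exp (-uq β (Real.log T) A (Real.log q) z.re)) (((1 / 2 : ℝ) : ℂ) + y * I) r) := by
    intro y
    rw [← ENNReal.ofReal_mul hK0.le]
    apply ENNReal.ofReal_le_ofReal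
    have h2 := jensen_w (FB_diff β T U) (c := ((1 / 2 : ℝ) : ℂ) + y * I) hr0 hβ
      (u := fun z => uq β (Real.log T) A (Real.log q) z.re)
      ((uq_cont β (Real.log T) A (Real.log q)).comp Complex.continuous_re)
    rw [NN_eq (FB_diff β T U) (ord_FB β T U) _ hr0, avg_uq _ _ _ _ _ hr0] at h2
    have e1 : Real.exp (2 / Real.pi * (Real.log q * Real.log T / A * r) +
        β * Real.log T * r / Real.pi) = K := by
      have e2 : 2 / Real.pi * (Real.log q * Real.log T / A * r) + β * Real.log T * r / Real.pi =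
          β * A / Real.pi + Real.log q * (2 / Real.pi) := by
        rw [hr]
        field_simp
        ring
      rw [e2, Real.exp_add, hK, Real.rpow_def_of_pos hq0]
    rw [Real.exp_sub, e1, mul_div_assoc', div_le_iff₀ hK0] at h2
    refine h2.trans (le_of_eq ?_)
    rw [mul_comm K]
  refine (lintegral_mono hpt).trans ?_
  rw [lintegral_const_mul' _ _ ENNReal.ofReal_ne_top]
  calc ENNReal.ofReal K * _ ≤ ENNReal.ofReal K *
        ENNReal.ofReal ((1 + ε) * HB β T U (1 / 2)) := by gcongr
    _ = _ := by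
        rw [← ENNReal.ofReal_mul hK0.le]
        congr 1
        ring

end

end Q97.RH
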